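import Mathlib

set_option autoImplicit false

namespace Pool.Agent.Results.MP_bf8bcd_co.NoField

open Matrix

/-- `C` has minimum rank distance `d`. -/
def MinDist {F : Type} [Field F] {n : ℕ} (C : Set (Matrix (Fin n) (Fin n) F)) (d : ℕ) : Prop :=
  IsLeast {r | ∃ X ∈ C, ∃ Y ∈ C, X ≠ Y ∧ (X - Y).rank = r} d

instance : Fact (∀ r : ZMod 2, r ^ 2 ≠ 1 + 1 * r) := ⟨by decide⟩

abbrev F4 := QuadraticAlgebra (ZMod 2) 1 1

instance : Fintype F4 := Fintype.ofEquiv _ (QuadraticAlgebra.equivProd (1 : ZMod 2) 1).symm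

def w : F4 := ⟨0, 1⟩

def r0 (a b _c _d e f : F4) : F4 := a * a + b * b + w * w * (e * e) + w * (f * f)
def r1 (a _b c d _e _f : F4) : F4 := a * a + c * c + w * w * (d * d)
def r2 (a _b c _d e _f : F4) : F4 := a * a + w * (c * c) + e * e

def M (x : Fin 2 → Fin 3 → F4) : Matrix (Fin 3) (Fin 3) F4 :=
  !![x 0 0, x 0 1, x 0 2; x 1 0, x 1 1, x 1 2;
    r0 (x 0 0) (x 0 1) (x 0 2) (x 1 0) (x 1 1) (x 1 2),
    r1 (x 0 0) (x 0 1) (x 0 2) (x 1 0) (x 1 1) (x 1 2),
    r2 (x 0 0) (x 0 1) (x 0 2) (x 1 0) (x 1 1) (x 1 2)]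

lemma two : (2 : F4) = 0 := by decide +kernel

lemma M_sub (x y : Fin 2 → Fin 3 → F4) : M (x - y) = M x - M y := by
  have sq : ∀ a b : F4, (a - b) * (a - b) = a * a - b * b := by decide +kernel
  ext1 i j
  fin_cases i <;> fin_cases j <;> simp [M, r0, r1, r2, sq] <;> ring

lemma M_inj : Function.Injective M := by
  intro x y h
  have := fun i j => congrFun (congrFun h i) j
  ext1 i; ext1 j
  fin_cases i <;> fin_cases j
  exacts [this 0 0, this 0 1, this 0 2, this 1 0, this 1 1, this 1 2]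

set_option synthInstance.maxSize 4000 in
lemma chk : ∀ a b c d e f : F4, (a = 0 ∧ b = 0 ∧ c = 0 ∧ d = 0 ∧ e = 0 ∧ f = 0) ∨
    a * e ≠ b * d ∨ a * f ≠ c * d ∨ b * f ≠ c * e ∨
    a * r1 a b c d e f ≠ b * r0 a b c d e f ∨ a * r2 a b c d e f ≠ c * r0 a b c d e f ∨
    b * r2 a b c d e f ≠ c * r1 a b c d e f ∨
    d * r1 a b c d e f ≠ e * r0 a b c d e f ∨ d * r2 a b c d e f ≠ f * r0 a b c d e f ∨
    e * r2 a b c d e f ≠ f * r1 a b c d e f := by decide +kernel

lemma minor (X : Matrix (Fin 3) (Fin 3) F4) (i j k l : Fin 3) (h : X i k * X j l ≠ X i l * X j k) :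
    2 ≤ X.rank := by
  have h1 := rank_submatrix_le X ![i, j] ![k, l]
  rwa [rank_of_isUnit _ ((isUnit_iff_isUnit_det _).2 (isUnit_iff_ne_zero.2 (by
    rw [det_fin_two]; exact sub_ne_zero.2 h))), Fintype.card_fin] at h1

lemma rk (x : Fin 2 → Fin 3 → F4) (hx : x ≠ 0) : 2 ≤ (M x).rank := by
  rcases chk (x 0 0) (x 0 1) (x 0 2) (x 1 0) (x 1 1) (x 1 2) with
    ⟨h1, h2, h3, h4, h5, h6⟩ | h | h | h | h | h | h | h | h | h
  · refine absurd ?_ hx
    ext1 i; ext1 j
    fin_cases i <;> fin_cases j <;> assumption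
  exacts [minor _ 0 1 0 1 h, minor _ 0 1 0 2 h, minor _ 0 1 1 2 h, minor _ 0 2 0 1 h,
    minor _ 0 2 0 2 h, minor _ 0 2 1 2 h, minor _ 1 2 0 1 h, minor _ 1 2 0 2 h, minor _ 1 2 1 2 h]

lemma sing (X : Matrix (Fin 3) (Fin 3) F4) (h1 : X ∈ Set.range M) (h2 : w • X ∈ Set.range M) :
    X.det = 0 := by
  obtain ⟨x, rfl⟩ := h1
  obtain ⟨y, hy⟩ := h2
  have e := fun i j => congrFun (congrFun hy i) j
  have a0 : y 0 0 = w * x 0 0 := e 0 0
  have a1 : y 0 1 = w * x 0 1 := e 0 1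
  have a2 : y 0 2 = w * x 0 2 := e 0 2
  have a3 : y 1 0 = w * x 1 0 := e 1 0
  have a4 : y 1 1 = w * x 1 1 := e 1 1
  have a5 : y 1 2 = w * x 1 2 := e 1 2
  have k : ∀ t : F4, w * w * t = w * t → t = 0 := by decide +kernel
  refine det_eq_zero_of_row_eq_zero 2 fun j => k _ ?_
  have := e 2 j
  fin_cases j <;> simp [M, r0, r1, r2, a0, a1, a2, a3, a4, a5, -mul_eq_mul_right_iff] at this ⊢ <;>
    linear_combination this

/-- An additive MRD code of minimum distance `d < n` containing no code equivalent to a field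
spread set. -/
theorem result : ∃ (F : Type) (_ : Field F) (_ : Fintype F) (n d : ℕ)
    (C : AddSubgroup (Matrix (Fin n) (Fin n) F)), 2 ≤ n ∧ d < n ∧ MinDist (C : Set (Matrix (Fin n) (Fin n) F)) d ∧
    Nat.card C = Fintype.card F ^ (n * (n - d + 1)) ∧
    ∀ (K : Type) [Field K] [Algebra F K] (b : Module.Basis (Fin n) F K)
      (A B : GL (Fin n) F) (s : F ≃+* F),
      ¬ (∀ a : K, A.val * (Algebra.leftMulMatrix b a).map s * B.val ∈ C) ∧
      ¬ (∀ a : K, A.val * ((Algebra.leftMulMatrix b a).map s)ᵀ * B.val ∈ C) := by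
  let f : (Fin 2 → Fin 3 → F4) →+ Matrix (Fin 3) (Fin 3) F4 := AddMonoidHom.ofMapSub M M_sub
  refine ⟨F4, inferInstance, inferInstance, 3, 2, f.range, by norm_num, by norm_num, ⟨?_, ?_⟩,
    ?_, fun K _ _ b A B s => ?_⟩
  · let x : Fin 2 → Fin 3 → F4 := ![![0, 0, 0], ![1, 0, 0]]
    have hx : x ≠ 0 := by decide +kernel
    refine ⟨M x, ⟨x, rfl⟩, 0, zero_mem _, fun h => hx (M_inj (h.trans f.map_zero.symm)), ?_⟩
    rw [sub_zero]
    refine le_antisymm ?_ (rk x hx)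
    have : M x = (!![0, 0; 1, 0; 0, 1] : Matrix (Fin 3) (Fin 2) F4) *
        (M x).submatrix ![1, 2] id := by decide +kernel
    rw [this]
    exact (rank_mul_le_left _ _).trans ((rank_le_card_width _).trans (by simp))
  · rintro _ ⟨_, ⟨x, rfl⟩, _, ⟨y, rfl⟩, hne, rfl⟩
    rw [← map_sub]
    exact rk _ (sub_ne_zero.2 fun h => hne (by rw [h]))
  · rw [← Nat.card_congr (f.ofInjective M_inj).toEquiv]
    simp [← pow_mul]
  · have e1 : (Algebra.leftMulMatrix b (1 : K)).map s = 1 := by simp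
    have e2 : (Algebra.leftMulMatrix b (algebraMap F4 K (s.symm w))).map s = w • 1 := by
      rw [AlgHom.commutes]
      ext1 i j
      by_cases h : i = j <;> simp [Matrix.algebraMap_matrix_apply, h]
    have hd : (A.val * B.val).det ≠ 0 := (((isUnit_iff_isUnit_det _).1 (A * B).isUnit)).ne_zero
    constructor <;> intro h <;> apply hd
    · have h1 := h 1
      have h2 := h (algebraMap F4 K (s.symm w))
      rw [e1, mul_one] at h1
      rw [e2, Matrix.mul_smul, mul_one, Matrix.smul_mul] at h2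
      exact sing _ h1 h2
    · have h1 := h 1
      have h2 := h (algebraMap F4 K (s.symm w))
      rw [e1, transpose_one, mul_one] at h1
      rw [e2, transpose_smul, transpose_one, Matrix.mul_smul, mul_one, Matrix.smul_mul] at h2
      exact sing _ h1 h2

end Pool.Agent.Results.MP_bf8bcd_co.NoField
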